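import Pool.Agent.R557.CKMeas

set_option autoImplicit false

/-! Problem MP_616e01_lc, question Q1: every `C`-trivial measure on Cantor space is
`K`-trivial. -/

namespace Pool.Agent.Results.MP_616e01_lc.CTrivialKTrivial

open MeasureTheory
open Pool.Agent.TH676.CK (isKP_cx isPlain_cx card_len)
open Pool.Agent.R557.CK

/-- An optimal plain machine: a partial computable map `U` from programs (binary strings) to binary
strings which simulates every partial computable map `V` with programs longer by at most a
constant. -/
def OptimalPlain (U : List Bool →. List Bool) : Prop :=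
  Partrec U ∧ ∀ V : List Bool →. List Bool, Partrec V →
    ∃ c : ℕ, ∀ p x : List Bool, x ∈ V p → ∃ q : List Bool, x ∈ U q ∧ q.length ≤ p.length + c

/-- A prefix-free machine: a partial computable map whose domain contains no program together with a
proper extension of it. -/
def PrefixFreeMachine (V : List Bool →. List Bool) : Prop :=
  Partrec V ∧ ∀ p q : List Bool, (V p).Dom → (V q).Dom → p <+: q → p = q

/-- An optimal prefix-free machine. -/
def OptimalPrefixFree (U : List Bool →. List Bool) : Prop :=
  PrefixFreeMachine U ∧ ∀ V : List Bool →. List Bool, PrefixFreeMachine V →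
    ∃ c : ℕ, ∀ p x : List Bool, x ∈ V p → ∃ q : List Bool, x ∈ U q ∧ q.length ≤ p.length + c

/-- The complexity of `x` with respect to the machine `U`: the least length of a program for `x`.
For an optimal plain machine this is `C(x)`, for an optimal prefix-free machine it is `K(x)`. -/
noncomputable def complexity (U : List Bool →. List Bool) (x : List Bool) : ℕ :=
  sInf {l : ℕ | ∃ p : List Bool, p.length = l ∧ x ∈ U p}

/-- The `μ`-average of `F` at length `n`: the sum of `μ[x] F(x)` over the strings `x` of
length `n`, where `μ[x]` is the measure of the set of sequences extending `x`. -/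
noncomputable def average (F : List Bool → ℕ) (μ : Measure (ℕ → Bool)) (n : ℕ) : ℝ :=
  ∑ x : Fin n → Bool, μ.real {X | ∀ i : Fin n, X i = x i} * F (List.ofFn x)

/-- The measure `μ` is trivial for the complexity function of the machine `U`: for some `c`, its
average complexity at length `n` is at most the complexity of (the string identified with) `n`
plus `c`, for all `n`. -/
def TrivialMeasure (U : List Bool →. List Bool) (str : ℕ ≃ List Bool) (μ : Measure (ℕ → Bool)) :
    Prop :=
  ∃ c : ℝ, ∀ n : ℕ, average (complexity U) μ n ≤ complexity U (str n) + c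

lemma computable_symm (str : ℕ ≃ List Bool) (hs : Computable str) : Computable str.symm := by
  have h1 : Partrec (fun x : List Bool => Nat.rfind (fun n => Part.some (decide (str n = x)))) := by
    have h2 : Computable₂ (fun (x : List Bool) (n : ℕ) => decide (str n = x)) :=
      (Primrec.eq.decide.to_comp).comp (hs.comp Computable.snd) Computable.fst
    exact Partrec.rfind h2.partrec₂
  have h2 : ∀ x : List Bool, Nat.rfind (fun n => Part.some (decide (str n = x))) =
      Part.some (str.symm x) := by
    intro x
    apply Part.eq_some_iff.2
    refine (Nat.mem_rfind (p := fun n => Part.some (decide (str n = x)))).2 ⟨?_, ?_⟩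
    · simp
    · intro m hm
      rw [Part.mem_some_iff]
      symm
      rw [decide_eq_false_iff_not]
      intro h
      rw [← h, Equiv.symm_apply_apply] at hm
      exact lt_irrefl _ hm
  exact h1.of_eq h2

lemma log_log {n N : ℕ} (h : N ∈ Finset.Ico (lo n) (hi n)) : Nat.log 2 (Nat.log 2 N) = n := by
  rw [Finset.mem_Ico] at h
  have hN : N ≠ 0 := by
    have : 0 < lo n := by unfold lo; positivity
    omega
  have h1 : 2 ^ n ≤ Nat.log 2 N := by
    rw [Nat.le_log_iff_pow_le (by norm_num) hN]
    exact h.1
  have h2 : Nat.log 2 N < 2 ^ (n + 1) := Nat.log_lt_of_lt_pow hN h.2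
  exact Nat.log_eq_of_pow_le_of_lt_pow h1 h2

lemma le_of_mem {n N : ℕ} (h : N ∈ Finset.Ico (lo n) (hi n)) : n ≤ N := by
  rw [Finset.mem_Ico] at h
  have h1 : n < 2 ^ n := Nat.lt_two_pow_self
  have h2 : 2 ^ n < 2 ^ (2 ^ n) := Nat.lt_two_pow_self
  have h3 : lo n = 2 ^ (2 ^ n) := rfl
  omega

/-- Every `C`-trivial measure is `K`-trivial. Here `C` and `K` are the complexity functions of
arbitrary optimal plain and prefix-free machines, and natural numbers are identified with
strings by an arbitrary computable bijection `str`. -/
theorem result (U V : List Bool →. List Bool) (hU : OptimalPlain U) (hV : OptimalPrefixFree V)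
    (str : ℕ ≃ List Bool) (hs : Computable str) (μ : Measure (ℕ → Bool)) [IsProbabilityMeasure μ]
    (hμ : TrivialMeasure U str μ) : TrivialMeasure V str μ := by
  classical
  have hC := isPlain_cx (U := U) hU str hs
  have hK := isKP_cx (V := V) hV str hs
  have hsymm := computable_symm str hs
  set C : ℕ → ℕ := fun n => complexity U (str n) with hCdef
  set K : ℕ → ℕ := fun n => complexity V (str n) with hKdef
  change Pool.Agent.TH676.CK.IsPlain C at hC
  change Pool.Agent.Helper981.KP.IsKP K at hK
  have clen : Computable (fun u : ℕ => (str u).length) := Computable.list_length.comp hs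
  obtain ⟨c1, hc1⟩ := main_ineq hK hC (fun u => (str u).length) clen (by
    intro n T hT
    rw [← Finset.card_image_of_injective T str.injective]
    apply card_len
    intro p hp
    obtain ⟨u, hu, rfl⟩ := Finset.mem_image.1 hp
    exact hT u hu)
  obtain ⟨c2, hc2⟩ := plain_log hC
  -- the map from long to short initial segments
  let h : ℕ → ℕ := fun u => Nat.pair
    (str.symm ((str u).take (Nat.log 2 (Nat.log 2 (str u).length)))) (str u).length
  have hh : Computable h := by
    refine c_pair (hsymm.comp ?_) clen
    exact (Primrec.list_take.to_comp).comp (c_log2 (c_log2 clen)) hs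
  obtain ⟨c3, hc3⟩ := plain_comp hC h hh
  have hpt : ∀ (n N : ℕ), N ∈ Finset.Ico (lo n) (hi n) → ∀ X : ℕ → Bool,
      (C (Nat.pair (str.symm (ini n X)) N) : ℝ) ≤ complexity U (ini N X) + c3 := by
    intro n N hN X
    have h1 := hc3 (str.symm (ini N X))
    have h2 : h (str.symm (ini N X)) = Nat.pair (str.symm (ini n X)) N := by
      simp only [h, Equiv.apply_symm_apply, ini_length]
      rw [log_log hN, ini_take (le_of_mem hN)]
    have h3 : C (str.symm (ini N X)) = complexity U (ini N X) := by
      simp only [hCdef, Equiv.apply_symm_apply]
    rw [h2, h3] at h1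
    exact_mod_cast h1
  obtain ⟨c4, hc4⟩ := hμ
  refine ⟨c1 + (c4 + c2 + c3), fun n => ?_⟩
  -- pointwise bound
  have hpoint : ∀ X : ℕ → Bool, (complexity V (ini n X) : ℝ) ≤ complexity V (str n) + c1 +
      ∑ N ∈ Finset.Ico (lo n) (hi n), wt n N * ((complexity U (ini N X) : ℝ) + c3 - Nat.log 2 N) := by
    intro X
    have h1 := hc1 (str.symm (ini n X))
    have h2 : K (str.symm (ini n X)) = complexity V (ini n X) := by
      simp only [hKdef, Equiv.apply_symm_apply]
    simp only [h2, Equiv.apply_symm_apply, ini_length] at h1
    refine h1.trans ?_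
    have h3 : ∑ N ∈ Finset.Ico (lo n) (hi n), wt n N *
        ((C (Nat.pair (str.symm (ini n X)) N) : ℝ) - Nat.log 2 N) ≤
        ∑ N ∈ Finset.Ico (lo n) (hi n), wt n N * ((complexity U (ini N X) : ℝ) + c3 - Nat.log 2 N) := by
      apply Finset.sum_le_sum
      intro N hN
      apply mul_le_mul_of_nonneg_left _ (wt_nonneg n N)
      have := hpt n N hN X
      linarith
    have h4 : (K n : ℝ) = complexity V (str n) := rfl
    rw [h4]
    linarith
  -- integrate
  have hint : ∀ N, Integrable (fun X : ℕ → Bool => (complexity U (ini N X) : ℝ)) μ := fun N =>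
    integrable_ini μ N (fun x => (complexity U x : ℝ))
  have havg : ∀ (W : List Bool →. List Bool) (m : ℕ), average (complexity W) μ m =
      ∫ X, (complexity W (ini m X) : ℝ) ∂μ := fun W m =>
    integral_ini μ m (fun x => (complexity W x : ℝ))
  have hint2 : ∀ N ∈ Finset.Ico (lo n) (hi n), Integrable (fun X : ℕ → Bool =>
      wt n N * ((complexity U (ini N X) : ℝ) + c3 - Nat.log 2 N)) μ := by
    intro N _
    exact (((hint N).add (integrable_const _)).sub (integrable_const _)).const_mul _
  rw [havg]
  calc ∫ X, (complexity V (ini n X) : ℝ) ∂μ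
      ≤ ∫ X, ((complexity V (str n) : ℝ) + c1 + ∑ N ∈ Finset.Ico (lo n) (hi n),
          wt n N * ((complexity U (ini N X) : ℝ) + c3 - Nat.log 2 N)) ∂μ := by
        apply integral_mono (integrable_ini μ n (fun x => (complexity V x : ℝ))) _ hpoint
        exact (integrable_const _).add (integrable_finsetSum _ hint2)
    _ = (complexity V (str n) : ℝ) + c1 + ∑ N ∈ Finset.Ico (lo n) (hi n),
          wt n N * (average (complexity U) μ N + c3 - Nat.log 2 N) := by
        rw [integral_add (integrable_const _) (integrable_finsetSum _ hint2), integral_const,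
          integral_finsetSum _ hint2]
        simp only [probReal_univ, one_smul]
        congr 1
        apply Finset.sum_congr rfl
        intro N _
        have e1 : ∫ X, ((complexity U (ini N X) : ℝ) + c3 - Nat.log 2 N) ∂μ =
            ∫ X, ((complexity U (ini N X) : ℝ) + (c3 - Nat.log 2 N)) ∂μ := by
          congr 1
          funext X
          ring
        rw [integral_const_mul, e1, integral_add (hint N) (integrable_const _), havg,
          integral_const]
        simp only [probReal_univ, one_smul]
        ring
    _ ≤ (complexity V (str n) : ℝ) + c1 + ∑ N ∈ Finset.Ico (lo n) (hi n),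
          wt n N * (c4 + c2 + c3) := by
        have h1 : ∀ N ∈ Finset.Ico (lo n) (hi n),
            wt n N * (average (complexity U) μ N + c3 - Nat.log 2 N) ≤ wt n N * (c4 + c2 + c3) := by
          intro N _
          apply mul_le_mul_of_nonneg_left _ (wt_nonneg n N)
          have h2 := hc4 N
          have h3 : ((complexity U (str N) : ℕ) : ℝ) ≤ Nat.log 2 N + c2 := by exact_mod_cast hc2 N
          linarith
        have := Finset.sum_le_sum h1
        linarith
    _ = (complexity V (str n) : ℝ) + (c1 + (c4 + c2 + c3)) := by
        rw [← Finset.sum_mul, sum_wt]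
        ring

end Pool.Agent.Results.MP_616e01_lc.CTrivialKTrivial
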